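import Pool.Agent.Helper992.Seq

set_option autoImplicit false
open scoped Classical

namespace Pool.Agent.Results.MP_5c9cd2_nt.FourValuedFull

/-- Let `α` be a primitive element of `F = GF(2 ^ (2 k))`, let `s` be an integer and let `d` be a
natural number congruent to `s (2 ^ k - 1) + 1` modulo `2 ^ (2 k) - 1` and prime to it. If the
cross-correlation `C_d(τ) = ∑_{t < 2 ^ (2 k) - 1} (-1) ^ (Tr (α ^ (t + τ)) + Tr (α ^ (d t)))`,
`0 ≤ τ < 2 ^ (2 k) - 1`, takes exactly four values, then `s = 2 ^ r (2 ^ r ± 1)⁻¹` modulo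
`2 ^ k + 1` for some `r ≥ 1` with `v₂ r < v₂ k` and some choice of sign. -/
theorem result (k : ℕ) (hk : 1 ≤ k) (F : Type) [Field F] [Fintype F] [Algebra (ZMod 2) F]
    (hF : Fintype.card F = 2 ^ (2 * k)) (α : F) (hα : orderOf α = 2 ^ (2 * k) - 1)
    (s : ℤ) (d : ℕ) (hd : (d : ℤ) ≡ s * (2 ^ k - 1) + 1 [ZMOD (2 ^ (2 * k) - 1 : ℤ)])
    (hcop : Nat.Coprime d (2 ^ (2 * k) - 1))
    (h4 : ((Finset.range (2 ^ (2 * k) - 1)).image (fun τ : ℕ =>
      ∑ t ∈ Finset.range (2 ^ (2 * k) - 1),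
        (-1 : ℤ) ^ ((Algebra.trace (ZMod 2) F (α ^ (t + τ))).val
          + (Algebra.trace (ZMod 2) F (α ^ (d * t))).val))).card = 4) :
    ∃ r : ℕ, 0 < r ∧ padicValNat 2 r < padicValNat 2 k ∧
      ((IsUnit (2 ^ r + 1 : ZMod (2 ^ k + 1)) ∧
          (s : ZMod (2 ^ k + 1)) = 2 ^ r * (2 ^ r + 1 : ZMod (2 ^ k + 1))⁻¹) ∨
        (IsUnit (2 ^ r - 1 : ZMod (2 ^ k + 1)) ∧
          (s : ZMod (2 ^ k + 1)) = 2 ^ r * (2 ^ r - 1 : ZMod (2 ^ k + 1))⁻¹)) := by
  have h16 : 4 ≤ 2 ^ (2 * k) := by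
    calc 4 = 2 ^ (2 * 1) := by norm_num
      _ ≤ 2 ^ (2 * k) := Nat.pow_le_pow_right (by norm_num) (by omega)
  have hα1 : α ^ (2 ^ (2 * k) - 1) = 1 := by rw [← hα]; exact pow_orderOf_eq_one α
  have hα0 : α ≠ 0 := by
    rintro rfl
    rw [zero_pow (by omega)] at hα1
    exact zero_ne_one hα1
  have hgen : ∀ x : F, x ≠ 0 → ∃ i : ℕ, α ^ i = x := by
    have hinj : Set.InjOn (fun i : ℕ => α ^ i) (Finset.range (2 ^ (2 * k) - 1) : Finset ℕ) := by
      intro i hi j hj h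
      rw [Finset.mem_coe, Finset.mem_range] at hi hj
      apply pow_injOn_Iio_orderOf (x := α) _ _ h
      · rw [Set.mem_Iio, hα]; exact hi
      · rw [Set.mem_Iio, hα]; exact hj
    have heq : (Finset.range (2 ^ (2 * k) - 1)).image (fun i : ℕ => α ^ i)
        = Finset.univ.erase (0 : F) := by
      apply Finset.eq_of_subset_of_card_le
      · intro x hx
        obtain ⟨i, _, rfl⟩ := Finset.mem_image.mp hx
        exact Finset.mem_erase.mpr ⟨pow_ne_zero _ hα0, Finset.mem_univ _⟩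
      · rw [Finset.card_image_of_injOn hinj, Finset.card_erase_of_mem (Finset.mem_univ _),
          Finset.card_univ, hF, Finset.card_range]
    intro x hx
    have hx' : x ∈ Finset.univ.erase (0 : F) := Finset.mem_erase.mpr ⟨hx, Finset.mem_univ _⟩
    rw [← heq] at hx'
    obtain ⟨i, _, hi⟩ := Finset.mem_image.mp hx'
    exact ⟨i, hi⟩
  obtain ⟨r, hr0, hr1, hr2⟩ := Pool.Agent.Helper992.seq_main hk hF hgen hα0 hd hcop h4
  refine ⟨r, hr0, hr1, ?_⟩
  rcases hr2 with h | h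
  · left
    have h1 := Pool.Agent.Helper992.inv_form hk h
    push_cast at h1
    exact ⟨IsUnit.of_mul_eq_one _ h1.1, h1.2⟩
  · right
    have h1 := Pool.Agent.Helper992.inv_form hk h
    push_cast at h1
    exact ⟨IsUnit.of_mul_eq_one _ h1.1, h1.2⟩

end Pool.Agent.Results.MP_5c9cd2_nt.FourValuedFull
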